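import Pool.Agent.W560.HP.Stm

/-! HP-LAU: from a place to `SpecAt`. -/

set_option autoImplicit false

namespace Pool.Agent.W108.HP

open Polynomial
open W560.HP

theorem ind_u {k E ι : Type} [Field k] [Field E] [Algebra k E] [DecidableEq ι] (i : ι)
    (v : ι → E) (hv : AlgebraicIndependent k (fun j : {j : ι // j ≠ i} => v j)) :
    AlgebraicIndependent k (fun j : ι => if j = i then (X : E[X]) else C (v j)) := by
  have h1 : AlgebraicIndependent E (fun _ : Unit => (X : E[X])) :=
    algebraicIndependent_unique_type_iff.2 (Polynomial.transcendental_X E)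
  have h2 := hv.sumElim_comp h1
  have h3 := h2.comp (fun j : ι => if h : j = i then Sum.inl () else Sum.inr ⟨j, h⟩) (by
    intro a b hab
    by_cases ha : a = i <;> by_cases hb : b = i
    · rw [ha, hb]
    · simp [ha, hb] at hab
    · simp [ha, hb] at hab
    · simpa [ha, hb] using hab)
  convert h3 using 1
  funext j
  by_cases h : j = i
  · simp [h]
  · simp [h, Polynomial.algebraMap_eq]

theorem lau : S_LAU := by
  classical
  intro k F ι _ _ _ _ _ w i E _ _ v hv M _ _ O π Ψ hO hj hi
  set R₀ := Algebra.adjoin k (Set.range w) with hR₀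
  have hwO : ∀ j, Ψ (w j) ∈ O := by
    intro j
    by_cases h : j = i
    · rw [h]; exact hi.choose
    · exact (hj j h).choose
  have h1 : R₀ ≤ O.comap Ψ := Algebra.adjoin_le (by rintro _ ⟨j, rfl⟩; exact hwO j)
  let B : Subalgebra k F := (integralClosure R₀ F).restrictScalars k
  have hB : B ≤ O.comap Ψ := by
    intro x hx
    have hx' : IsIntegral R₀ x := hx
    apply hO
    let ψ₀ : R₀ →+* O := ((Ψ.comp R₀.val).codRestrict O (fun r => h1 r.2)).toRingHom
    exact hx'.map_of_comp_eq ψ₀ Ψ.toRingHom rfl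
  have hRB : R₀ ≤ B := fun r hr => (isIntegral_algebraMap (R := R₀) (A := F) (x := ⟨r, hr⟩))
  have hwR : ∀ j, w j ∈ R₀ := fun j => Algebra.subset_adjoin ⟨j, rfl⟩
  have hwB : ∀ j, w j ∈ B := fun j => hRB (hwR j)
  let α : E[X] →ₐ[k] FractionRing E[X] := IsScalarTower.toAlgHom k E[X] (FractionRing E[X])
  have hα : Function.Injective α := IsFractionRing.injective E[X] (FractionRing E[X])
  let θ : B →ₐ[k] FractionRing E[X] := π.comp ((Ψ.comp B.val).codRestrict O (fun x => hB x.2))
  have hθw : ∀ j, θ ⟨w j, hwB j⟩ = α (if j = i then X else C (v j)) := by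
    intro j
    by_cases h : j = i
    · subst h
      rw [if_pos rfl]
      obtain ⟨h2, h3⟩ := hi
      exact h3
    · rw [if_neg h]
      obtain ⟨h2, h3⟩ := hj j h
      exact h3
  let e : E[X] ≃ₐ[k] α.range := AlgEquiv.ofInjective α hα
  have hR1 : R₀ ≤ (α.range.comap θ).map B.val := by
    refine Algebra.adjoin_le ?_
    rintro _ ⟨j, rfl⟩
    exact ⟨⟨w j, hwB j⟩, ⟨_, (hθw j).symm⟩, rfl⟩
  have hR2 : ∀ r (hr : r ∈ R₀), θ ⟨r, hRB hr⟩ ∈ α.range := by
    intro r hr
    obtain ⟨b, hb, hbr⟩ := hR1 hr
    have : (⟨r, hRB hr⟩ : B) = b := Subtype.ext hbr.symm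
    rw [this]
    exact hb
  let φ₁ : R₀ →ₐ[k] E[X] := (e.symm : α.range →ₐ[k] E[X]).comp
    ((θ.comp (Subalgebra.inclusion hRB)).codRestrict α.range (fun r => hR2 r.1 r.2))
  have hφ₁ : ∀ r : R₀, α (φ₁ r) = θ ⟨r.1, hRB r.2⟩ := by
    intro r
    have h3 : e (φ₁ r) = ⟨θ ⟨r.1, hRB r.2⟩, hR2 r.1 r.2⟩ := e.apply_symm_apply _
    exact congrArg Subtype.val h3
  have hθS : ∀ x : B, θ x ∈ α.range := by
    intro x
    let θc : integralClosure R₀ F →+* FractionRing E[X] := θ.toRingHom
    let xc : integralClosure R₀ F := ⟨x.1, x.2⟩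
    have hx : IsIntegral R₀ xc := integralClosure.isIntegral _
    have h4 : IsIntegral E[X] (θc xc) := by
      refine hx.map_of_comp_eq φ₁.toRingHom θc ?_
      ext r
      exact hφ₁ r
    obtain ⟨y, hy⟩ := IsIntegrallyClosed.isIntegral_iff.1 h4
    exact ⟨y, hy⟩
  let φ : B →ₐ[k] E[X] := (e.symm : α.range →ₐ[k] E[X]).comp (θ.codRestrict α.range hθS)
  have hφ : ∀ x : B, α (φ x) = θ x := by
    intro x
    have h3 : e (φ x) = ⟨θ x, hθS x⟩ := e.apply_symm_apply _
    exact congrArg Subtype.val h3
  have hφw : ∀ j, φ ⟨w j, hwB j⟩ = if j = i then X else C (v j) := by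
    intro j
    apply hα
    rw [hφ, hθw]
  have hu := ind_u i v hv
  have hwB' : AlgebraicIndependent k (fun j : ι => (⟨w j, hwB j⟩ : B)) := by
    apply AlgebraicIndependent.of_comp φ
    convert hu using 1
    funext j
    exact hφw j
  have hw : AlgebraicIndependent k w := by
    have := hwB'.map' (f := B.val) Subtype.val_injective
    exact this
  refine ⟨hw, E, inferInstance, inferInstance, B, φ, v, ?_, fun x hx => hx, ?_, ?_⟩
  · rw [injective_iff_map_eq_zero]
    let φc : integralClosure R₀ F →+* E[X] := φ.toRingHom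
    have hk : RingHom.ker φc = ⊥ := by
      apply Ideal.eq_bot_of_comap_eq_bot (R := R₀)
      rw [eq_bot_iff]
      intro r hr
      rw [Ideal.mem_comap, RingHom.mem_ker] at hr
      rw [Ideal.mem_bot]
      have hr2 : φ ⟨r.1, hRB r.2⟩ = 0 := hr
      have hr3 : (r : F) ∈ (MvPolynomial.aeval w : MvPolynomial ι k →ₐ[k] F).range := by
        rw [← Algebra.adjoin_range_eq_range_aeval]
        exact r.2
      obtain ⟨p, hp⟩ := hr3
      have h5 : (⟨r.1, hRB r.2⟩ : B) =
          MvPolynomial.aeval (fun j : ι => (⟨w j, hwB j⟩ : B)) p := by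
        apply Subtype.ext
        show r.1 = B.val _
        rw [MvPolynomial.comp_aeval_apply]
        exact hp.symm
      rw [h5] at hr2
      have h6 : MvPolynomial.aeval (fun j : ι => if j = i then (X : E[X]) else C (v j)) p = 0 := by
        rw [← hr2, MvPolynomial.comp_aeval_apply]
        congr 2
        funext j
        exact (hφw j).symm
      have h7 : p = 0 := by
        have := hu
        rw [AlgebraicIndependent] at this
        exact this (by rw [h6, map_zero])
      apply Subtype.ext
      rw [← hp, h7]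
      simp
    intro x hx
    have h8 : (⟨x.1, x.2⟩ : integralClosure R₀ F) ∈ RingHom.ker φc := hx
    rw [hk, Ideal.mem_bot] at h8
    exact Subtype.ext (congrArg Subtype.val h8)
  · intro j h hji
    have := hφw j
    rw [if_neg hji] at this
    exact this
  · intro h
    have := hφw i
    rw [if_pos rfl] at this
    exact this

end Pool.Agent.W108.HP
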